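import Pool.Agent.SF.Final

open Pool.Agent.SF (HasSF)

namespace Pool.Agent.Results.MP_715629_lc.StableForkingFails

/-- There is a complete first-order theory `T` all of whose 1-types have stable forking, while
`T` does not have stable forking: it fails for 11-types. -/
theorem result : ∃ (L : FirstOrder.Language.{0, 0}) (T : L.Theory), T.IsComplete ∧
    HasSF T 1 ∧ ¬ HasSF T 11 :=
  Pool.Agent.SF.exists_theory

end Pool.Agent.Results.MP_715629_lc.StableForkingFails
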